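import Pool.Agent.Q192.PerShE

/-!
# MP_2e038a_an, Q1: proved

For every `1 ≤ p < ∞` and every bounded weight `w` on `ℤ` with `inf |w| > 0`, the bilateral weighted
backward shift has the periodic shadowing property on `ℓ_p(ℤ)` if and only if it has it on
`c_0(ℤ)`.
-/

set_option autoImplicit false

open scoped ENNReal ZeroAtInfty

namespace Pool.Agent.Results.MP_2e038a_an.SameOnAllSpaces

open Pool.Agent.Q192.PerSh

section defs

variable {𝕜 X : Type} [RCLike 𝕜] [NormedAddCommGroup X] [NormedSpace 𝕜 X]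

/-- `T` is the weighted backward shift: the coordinate `n` of `T x` is `w (n+1)` times the
coordinate `n + 1` of `x`. Here `c x` is the sequence of the coordinates of `x`. -/
def IsWeightedShift (c : X → ℤ → 𝕜) (w : ℤ → 𝕜) (T : X ≃L[𝕜] X) : Prop :=
  ∀ (x : X) (n : ℤ), c (T x) n = w (n + 1) * c x (n + 1)

/-- The weighted backward shift exists, and every operator that is the weighted backward shift
(there is only one) has the periodic shadowing property. -/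
def ShiftHasPSP (c : X → ℤ → 𝕜) (w : ℤ → 𝕜) : Prop :=
  (∃ T : X ≃L[𝕜] X, IsWeightedShift c w T) ∧
    ∀ T : X ≃L[𝕜] X, IsWeightedShift c w T → PeriodicShadowing T

/-- The weighted backward shift exists as an invertible bounded operator. -/
def ShiftExists (c : X → ℤ → 𝕜) (w : ℤ → 𝕜) : Prop :=
  ∃ T : X ≃L[𝕜] X, IsWeightedShift c w T

end defs

/-- the coordinates of an element of `ℓ_p(ℤ)` -/
def lpC (𝕜 : Type) [RCLike 𝕜] (p : ℝ≥0∞) (x : lp (fun _ : ℤ => 𝕜) p) (n : ℤ) : 𝕜 := x n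

/-- the coordinates of an element of `c_0(ℤ)` -/
def c0C (𝕜 : Type) [RCLike 𝕜] (x : C₀(ℤ, 𝕜)) (n : ℤ) : 𝕜 := x n

theorem result (𝕜 : Type) [RCLike 𝕜] (p : ℝ≥0∞) [Fact (1 ≤ p)] (hp : p ≠ ∞) (w : ℤ → 𝕜)
    (hbdd : ∃ M : ℝ, ∀ n, ‖w n‖ ≤ M) (hinf : ∃ c : ℝ, 0 < c ∧ ∀ n, c ≤ ‖w n‖) :
    ShiftExists (lpC 𝕜 p) w ∧ ShiftExists (c0C 𝕜) w ∧
      (ShiftHasPSP (lpC 𝕜 p) w ↔ ShiftHasPSP (c0C 𝕜) w) := by
  obtain ⟨M0, hM0⟩ := hbdd
  obtain ⟨c, hc, hcw⟩ := hinf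
  obtain ⟨M, hM⟩ : ∃ M, M = max 1 (max M0 (1 / c)) := ⟨_, rfl⟩
  have hM1 : 1 ≤ M := by rw [hM]; exact le_max_left _ _
  have hw1 : ∀ n, ‖w n‖ ≤ M := fun n => (hM0 n).trans (by
    rw [hM]; exact (le_max_left _ _).trans (le_max_right _ _))
  have hMc : 1 / c ≤ M := by rw [hM]; exact (le_max_right _ _).trans (le_max_right _ _)
  have hw2 : ∀ n, 1 ≤ M * ‖w n‖ := by
    intro n
    calc (1 : ℝ) = 1 / c * c := by field_simp
      _ ≤ M * ‖w n‖ := mul_le_mul hMc (hcw n) hc.le (by linarith)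
  have hw0 : ∀ n, w n ≠ 0 := by
    intro n h
    have := hw2 n
    rw [h, norm_zero, mul_zero] at this
    linarith
  obtain ⟨ω, hω, hω0⟩ := exists_omega w hw0
  obtain ⟨T, hT⟩ := exists_shift (lpSeq 𝕜 p hp) w hw1 hw2
  obtain ⟨S, hS⟩ := exists_shift (c0Seq 𝕜) w hw1 hw2
  have cT := fun (T' : lp (fun _ : ℤ => 𝕜) p ≃L[𝕜] lp (fun _ : ℤ => 𝕜) p)
    (hT' : IsWeightedShift (lpC 𝕜 p) w T') =>
    psp_iff (lpSeq 𝕜 p hp) w ω hM1 hw1 hw2 hω hω0 T' hT'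
  have cS := fun (S' : C₀(ℤ, 𝕜) ≃L[𝕜] C₀(ℤ, 𝕜)) (hS' : IsWeightedShift (c0C 𝕜) w S') =>
    psp_iff (c0Seq 𝕜) w ω hM1 hw1 hw2 hω hω0 S' hS'
  refine ⟨⟨T, hT⟩, ⟨S, hS⟩, ?_, ?_⟩
  · rintro ⟨-, h⟩
    refine ⟨⟨S, hS⟩, fun S' hS' => ?_⟩
    rw [cS S' hS', ← cT T hT]
    exact h T hT
  · rintro ⟨-, h⟩
    refine ⟨⟨T, hT⟩, fun T' hT' => ?_⟩
    rw [cT T' hT', ← cS S hS]
    exact h S hS

end Pool.Agent.Results.MP_2e038a_an.SameOnAllSpaces
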